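import Pool.Agent.Y749.AH.Main2

/-!
# Distances of far apart zeros do not concentrate on cosets of lattices

Assume the Riemann hypothesis. For every `s > 1/2` there are `ε, R₀ > 0` such that for all
`R ≥ R₀` and every real `a`, for all large `T` and ALL real `b`, at least `ε R N(T)` of the pairs of
ordinates in `(0, T]` with normalised difference in `[a, a + R]` have this difference at distance at
least `ε` from the coset `b + s ℤ`. The same holds for every `s > 0` at which the form factor
`F(α, T)` has, for all large `T`, a mass less than `1 - η` near `α = 1 / s`. The window may be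
arbitrarily far from the origin and the coset may depend on `T`.

Idea of the proof (theorem `distant` of the library `Pool.Agent.Y749.AH`, not handed in before). The
pairs at a distance in `[a, a + R]` are seen by a tent of width `K / R` at the frequency `0` times
`cos 2πcα`; since the form factor has mass `1` at the origin and little mass near it, this pairing is
as large as the one with the tent. If almost all the distances were near `b + s ℤ` the same would
hold at the frequency `1 / s` with a phase, and since `F ≥ 0` the form factor would have mass at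
least about `1` at `1 / s`; but Montgomery's theorem and the positivity of `F` exclude this for
`1 / s < 2`.
-/

set_option autoImplicit false

open Filter Topology Set
open Complex (I)

namespace Pool.Agent.Results.MP_f0209c_nt.DistantWindows

/-- multiplicity of `s` as a zero of the Riemann zeta function (order of vanishing at `s`) -/
noncomputable def zmult (s : ℂ) : ℕ := analyticOrderNatAt riemannZeta s

/-- the number of nontrivial zeros of `ζ` with ordinate in `(0, t]`, with multiplicity -/
noncomputable def NZ (t : ℝ) : ℕ :=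
  ∑ᶠ s ∈ {s : ℂ | riemannZeta s = 0 ∧ 0 < s.re ∧ s.re < 1 ∧ 0 < s.im ∧ s.im ≤ t}, zmult s

/-- for `j ≥ 1`: the `j`-th positive ordinate `γ j` of a nontrivial zero of `ζ`, the ordinates being
listed in nondecreasing order and repeated according to multiplicity -/
noncomputable def γ (j : ℕ) : ℝ := sInf {t : ℝ | j ≤ NZ t}

/-- Montgomery's function `F(α, T)` (the sum is real) -/
noncomputable def F (α T : ℝ) : ℝ :=
  (2 * Real.pi / (T * Real.log T) * ∑ i ∈ Finset.Icc 1 (NZ T), ∑ j ∈ Finset.Icc 1 (NZ T),
    (T : ℂ) ^ (I * α * (γ i - γ j)) * (4 / (4 + (γ i - γ j) ^ 2)) : ℂ).re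

/-- the normalised differences `(γ_i - γ_j) log T / 2π` -/
noncomputable def x (T : ℝ) (i j : ℕ) : ℝ := (γ i - γ j) * Real.log T / (2 * Real.pi)

/-- the number of ordered pairs `(i, j)`, `1 ≤ i, j ≤ N(T)`, whose normalised difference lies in
`[a, a + R]` and has distance at least `ε` to the coset `b + s ℤ` -/
noncomputable def W (T a R b s ε : ℝ) : ℕ :=
  {p : ℕ × ℕ | (1 ≤ p.1 ∧ p.1 ≤ NZ T) ∧ (1 ≤ p.2 ∧ p.2 ≤ NZ T) ∧
    a ≤ x T p.1 p.2 ∧ x T p.1 p.2 ≤ a + R ∧ ∀ k : ℤ, ε ≤ |x T p.1 p.2 - b - k * s|}.ncard

/-- **Theorem.** Assume RH and let `s > 0`. If `s > 1/2`, or if `F(·, T)` has mass at most `1 - η` in a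
neighbourhood of `1 / s` for all large `T`, then there are `ε, R₀ > 0` such that for all `R ≥ R₀`
and all real `a`, for all large `T` and all real `b`, at least `ε R N(T)` pairs have a normalised
difference in `[a, a + R]` of distance at least `ε` to `b + s ℤ`. -/
theorem result (RH : RiemannHypothesis) (s : ℝ) (hs : 0 < s)
    (h : 1 / 2 < s ∨ ∃ δ η : ℝ, 0 < δ ∧ 0 < η ∧
      ∀ᶠ T in atTop, ∫ α in (1 / s - δ)..(1 / s + δ), F α T < 1 - η) :
    ∃ ε R₀ : ℝ, 0 < ε ∧ 0 < R₀ ∧ ∀ R a : ℝ, R₀ ≤ R → ∀ᶠ T in atTop, ∀ b : ℝ,
      ε * R * NZ T ≤ W T a R b s ε :=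
  Pool.Agent.Y749.AH.M.distant RH hs h

end Pool.Agent.Results.MP_f0209c_nt.DistantWindows
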