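import Pool.Agent.Results.MP_21f43f_nt.LatticeExclusion
import Pool.Agent.V11001.SI.Gaps

/-!
# The gaps of the zeros of zeta do not concentrate on a lattice, in every short interval near the powers of almost every
real number

Assume the Riemann hypothesis. Let `s > 1 / 2`, `0 < η < 1`, `1 / s < 1 + η` and `ν n / log n → ∞`, for example `ν n = n`.
There are `c, κ > 0` and `d < 1` such that for each `x > 1` outside a set of Hausdorff dimension at most `d` and all large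
`n`, `T = x ^ (ν n)`, EVERY interval `(a, b]` of length at least `T ^ η` in `[T - T ^ (η + κ), T + T ^ (η + κ)]` contains at
least `c (b - a) log T` ordinates `γ_n` whose normalised gap `δ_n` has distance at least `c` from `s ℤ`.
-/

set_option autoImplicit false

open MeasureTheory

namespace Pool.Agent.Results.MP_f0209c_nt.LatticeNearPowers

open Pool.Agent.V11001.KM Pool.Agent.V11001.SI
open MP_21f43f_nt
open LatticeExclusion (γ δ)

/-- every interval `(a, b]` of length at least `T ^ η` in `[T - T ^ (η + κ), T + T ^ (η + κ)]` contains at least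
`c (b - a) log T` ordinates `γ_n` whose normalised gap has distance at least `c` from `s ℤ` -/
def Every (s c η κ T : ℝ) : Prop :=
  ∀ a b : ℝ, T - T ^ (η + κ) ≤ a → b ≤ T + T ^ (η + κ) → T ^ η ≤ b - a →
    c * ((b - a) * Real.log T) ≤ ({n : ℕ | 1 ≤ n ∧ a < γ n ∧ γ n ≤ b ∧ ∀ k : ℤ, c ≤ |δ n - s * k|}.ncard : ℝ)

/-- **Theorem.** On the Riemann hypothesis, let `s > 1 / 2`, `0 < η < 1` and `1 / s < 1 + η`. There are `c, κ > 0` and
`d < 1` such that for all `ν` with `ν n / log n → ∞` and all countable sets `U` there is a set `E` of dimension at most `d`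
such that for `x > 1` outside `E`, `0 < β ∈ U` and all large `n`, `T = β x ^ (ν n)`, every interval `(a, b]` of length at
least `T ^ η` in `[T - T ^ (η + κ), T + T ^ (η + κ)]` contains at least `c (b - a) log T` ordinates `γ_n` for which `δ_n` has
distance at least `c` from `s ℤ`. -/
theorem result (RH : RiemannHypothesis) : ∀ s η : ℝ, 1 / 2 < s → 0 < η → η < 1 → 1 / s < 1 + η →
    ∃ c κ d : ℝ, 0 < c ∧ 0 < κ ∧ d < 1 ∧ ∀ ν : ℕ → ℝ, Fast ν → ∀ U : Set ℝ, U.Countable →
      ∃ E : Set ℝ, dimH E ≤ ENNReal.ofReal d ∧ ∀ x : ℝ, 1 < x → x ∉ E → ∀ β ∈ U, 0 < β →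
        ∃ n₀ : ℕ, ∀ n : ℕ, n₀ ≤ n → Every s c η κ (β * x ^ ν n) := by
  intro s η hs h0 h1 h2
  have h3 : max 0 (1 / s - 1) < η := max_lt h0 (by linarith)
  obtain ⟨η', hη1, hη2⟩ := exists_between h3
  have hη0 : 0 < η' := (le_max_left _ _).trans_lt hη1
  have hηs : 1 / s < 1 + η' := by
    have := (le_max_right 0 (1 / s - 1)).trans_lt hη1
    linarith
  obtain ⟨c, κ, hc, hκ, T₀, hT⟩ := (LatticeExclusion.result RH s hs).2 η' hη0 (by linarith) hηs
  obtain ⟨d, κ', -, hd1, hκ', -, h⟩ := gaps (fun n => ∀ k : ℤ, c ≤ |δ n - s * k|) hc hη0 hη2 h1 hκ hT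
  refine ⟨c / 4, κ', d, by positivity, hκ', hd1, fun ν hν U hU => ?_⟩
  obtain ⟨E, hE1, hE2⟩ := h ν hν U hU
  refine ⟨E, hE1, fun x hx hxE β hβ hβ0 => ?_⟩
  obtain ⟨n₀, hn₀⟩ := hE2 x hx hxE β hβ hβ0
  refine ⟨n₀, fun n hn a b ha hb hab => (hn₀ n hn a b ha hb hab).trans ?_⟩
  have hle : cnt (fun n => ∀ k : ℤ, c ≤ |δ n - s * k|) a b ≤
      {n : ℕ | 1 ≤ n ∧ a < γ n ∧ γ n ≤ b ∧ ∀ k : ℤ, c / 4 ≤ |δ n - s * k|}.ncard := by
    refine Set.ncard_le_ncard ?_ (cnt_finite (fun n => ∀ k : ℤ, c / 4 ≤ |δ n - s * k|) a b)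
    rintro n ⟨e1, e2, e3, e4⟩
    exact ⟨e1, e2, e3, fun k => le_trans (by linarith) (e4 k)⟩
  exact_mod_cast hle

end Pool.Agent.Results.MP_f0209c_nt.LatticeNearPowers
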