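import Pool.Agent.Y749.AH.Main2

/-!
# The lattices on which the normalised spacings concentrate

Assume the Riemann hypothesis and let `l` be `T → ∞` or a sequence (or a filter) of values of `T`
tending to infinity. Either for no `s > 0` almost all the normalised spacings `d_j` of the zeta zeros
are near `s ℤ`, or there is one number `s₀ ≤ 1/2` such that almost all spacings are near `s ℤ` exactly
for `s = s₀, s₀/2, s₀/3, …`. In particular two lattices on which the spacings concentrate are
commensurable, they are both contained in a third one, and the lattice `(1/2) ℤ` of the Alternative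
Hypothesis, if the spacings concentrate on it, is the coarsest possible one.

Idea of the proof (library `Pool.Agent.Y749.AH`, not handed in before). The frequencies `θ` such that
`sin π θ x` is small for almost all the differences `x` of zeros in every bounded window form a
subgroup of the real numbers, and `1/s` is in it if and only if almost all spacings are near `s ℤ`
(clusters of zeros are rare). By Montgomery's theorem and the positivity of the form factor the
subgroup does not meet `(0, 2)`, so it is cyclic.
-/

set_option autoImplicit false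

open Filter Topology Set

namespace Pool.Agent.Results.MP_f0209c_nt.LatticeStructure

/-- multiplicity of `s` as a zero of the Riemann zeta function (order of vanishing at `s`) -/
noncomputable def zmult (s : ℂ) : ℕ := analyticOrderNatAt riemannZeta s

/-- the number of nontrivial zeros of `ζ` with ordinate in `(0, t]`, with multiplicity -/
noncomputable def NZ (t : ℝ) : ℕ :=
  ∑ᶠ s ∈ {s : ℂ | riemannZeta s = 0 ∧ 0 < s.re ∧ s.re < 1 ∧ 0 < s.im ∧ s.im ≤ t}, zmult s

/-- for `j ≥ 1`: the `j`-th positive ordinate `γ j` of a nontrivial zero of `ζ`, the ordinates being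
listed in nondecreasing order and repeated according to multiplicity -/
noncomputable def γ (j : ℕ) : ℝ := sInf {t : ℝ | j ≤ NZ t}

/-- the normalised spacings `d_j = γ_{j+1} log γ_{j+1} / 2π - γ_j log γ_j / 2π` -/
noncomputable def d (j : ℕ) : ℝ :=
  (γ (j + 1) * Real.log (γ (j + 1)) - γ j * Real.log (γ j)) / (2 * Real.pi)

/-- almost all spacings are near `s ℤ`, along the filter `l` of values of `T` -/
def Spacings (l : Filter ℝ) (s : ℝ) : Prop := ∀ ε η : ℝ, 0 < ε → 0 < η → ∀ᶠ T in l,
  ({j : ℕ | 1 ≤ j ∧ j ≤ NZ T ∧ ∀ k : ℤ, ε ≤ |d j - k * s|}.ncard : ℝ) ≤ η * NZ T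

/-- **Theorem.** Assume RH, and let `T` tend to infinity along a proper filter `l`. Either the
spacings concentrate on no lattice `s ℤ`, `s > 0`, or there is `0 < s₀ ≤ 1/2` such that for `s > 0`
they concentrate on `s ℤ` if and only if `s = s₀ / m` with an integer `m ≥ 1`. -/
theorem result (RH : RiemannHypothesis) (l : Filter ℝ) (hl : l ≤ atTop) [l.NeBot] :
    (∀ s : ℝ, 0 < s → ¬ Spacings l s) ∨
    ∃ s₀ : ℝ, 0 < s₀ ∧ s₀ ≤ 1 / 2 ∧
      ∀ s : ℝ, 0 < s → (Spacings l s ↔ ∃ m : ℕ, 1 ≤ m ∧ s = s₀ / m) :=
  Pool.Agent.Y749.AH.M.lattices RH hl

end Pool.Agent.Results.MP_f0209c_nt.LatticeStructure
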