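import Pool.Agent.Y749.AH.Main

/-!
# The Alternative Hypothesis is a stable extremal case

Assume the Riemann hypothesis, let `F(α, T)` be Montgomery's function and
`J(T) = ∫_0^2 (2 - α) F(α, T) dα`. Then `J(T) ≥ 2 - o(1)`, and there is a quantitative converse: if
`J(T) ≤ 2 + q³ ε²` (`q > 0`, `0 < ε ≤ 1/4`, `T` large in terms of `q` and `ε`) then all but
`2 q N(T)` of the normalised spacings `d_j`, `j ≤ N(T)`, are within `ε` of a positive integer or a
positive half-odd integer. So an excess `q³ ε²` of `J` is needed if more than `2 q N(T)` of the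
spacings violate the Alternative Hypothesis by `ε`.

Idea of the proof (theorems `mainA1`, `mainA2` of the library `Pool.Agent.Y749.AH`, not handed in
before). The transform of the tent of support `[-2, 2]` is `(sin 2πx / 2πx)²` times a constant, which
is nonnegative and vanishes exactly at the nonzero multiples of `1/2`. By Montgomery's theorem `J(T)`
exceeds the value `2` by the sum of this function over the differences of consecutive zeros at least,
which is compared with the distances of the spacings to the half integers; spacings larger than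
`1/q` are rare.
-/

set_option autoImplicit false

open Filter Topology Set
open Complex (I)

namespace Pool.Agent.Results.MP_f0209c_nt.StabilityOfAH

/-- multiplicity of `s` as a zero of the Riemann zeta function (order of vanishing at `s`) -/
noncomputable def zmult (s : ℂ) : ℕ := analyticOrderNatAt riemannZeta s

/-- the number of nontrivial zeros of `ζ` with ordinate in `(0, t]`, with multiplicity -/
noncomputable def NZ (t : ℝ) : ℕ :=
  ∑ᶠ s ∈ {s : ℂ | riemannZeta s = 0 ∧ 0 < s.re ∧ s.re < 1 ∧ 0 < s.im ∧ s.im ≤ t}, zmult s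

/-- for `j ≥ 1`: the `j`-th positive ordinate `γ j` of a nontrivial zero of `ζ`, the ordinates being
listed in nondecreasing order and repeated according to multiplicity -/
noncomputable def γ (j : ℕ) : ℝ := sInf {t : ℝ | j ≤ NZ t}

/-- the normalised spacings `d_j = γ_{j+1} log γ_{j+1} / 2π - γ_j log γ_j / 2π` -/
noncomputable def d (j : ℕ) : ℝ :=
  (γ (j + 1) * Real.log (γ (j + 1)) - γ j * Real.log (γ j)) / (2 * Real.pi)

/-- Montgomery's function `F(α, T)` (the sum is real) -/
noncomputable def F (α T : ℝ) : ℝ :=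
  (2 * Real.pi / (T * Real.log T) * ∑ i ∈ Finset.Icc 1 (NZ T), ∑ j ∈ Finset.Icc 1 (NZ T),
    (T : ℂ) ^ (I * α * (γ i - γ j)) * (4 / (4 + (γ i - γ j) ^ 2)) : ℂ).re

/-- **Theorem.** Assume RH and put `J(T) = ∫_0^2 (2 - α) F(α, T) dα`. For every `η > 0`,
`J(T) ≥ 2 - η` for large `T`; and for all `q > 0`, `0 < ε ≤ 1/4` and all large `T`, if
`J(T) ≤ 2 + q³ ε²` then at most `2 q N(T)` of the spacings `d_j`, `j ≤ N(T)`, have distance at least
`ε` to `{1/2, 1, 3/2, …}`. -/
theorem result (RH : RiemannHypothesis) :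
    (∀ η : ℝ, 0 < η → ∀ᶠ T in atTop, 2 - η ≤ ∫ α in (0 : ℝ)..2, (2 - α) * F α T) ∧
    ∀ q ε : ℝ, 0 < q → 0 < ε → ε ≤ 1 / 4 →
      ∀ᶠ T in atTop, ∫ α in (0 : ℝ)..2, (2 - α) * F α T ≤ 2 + q ^ 3 * ε ^ 2 →
      ({j : ℕ | 1 ≤ j ∧ j ≤ NZ T ∧ ∀ k : ℕ, 1 ≤ k → ε ≤ |d j - k / 2|}.ncard : ℝ) ≤
        2 * q * NZ T :=
  ⟨fun _ hη => Pool.Agent.Y749.AH.M.mainA1 RH hη,
    fun _ _ hq hε hε4 => Pool.Agent.Y749.AH.M.mainA2 RH hq hε hε4⟩

end Pool.Agent.Results.MP_f0209c_nt.StabilityOfAH
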